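import Pool.Agent.P8H98.DF.Stm2

/-! # Project DF, package END: the end point of the self-avoiding walk on `ℤ⁴` -/

set_option autoImplicit false

namespace Pool.Agent.P8H63.DF

open Finset Filter Topology
open scoped Classical
open Pool.Agent.P8H98.DF

noncomputable section

theorem E_inj {p q : Z4} (h : E p = E q) : p = q := by
  have h0 := congrFun h 0
  have h1 := congrFun h 1
  have h2 := congrFun h 2
  have h3 := congrFun h 3
  simp [E] at h0 h1 h2 h3
  exact Prod.ext h0 (Prod.ext h1 (Prod.ext h2 h3))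

theorem E_add (p q : Z4) : E (p + q) = E p + E q := by
  funext i
  fin_cases i <;> simp [E]

theorem E_zero : E 0 = 0 := by
  funext i
  fin_cases i <;> simp [E]

theorem saw_inj {w : List Dir} (hn : SAW w) {k k' : ℕ} (hk : k ≤ w.length)
    (hk' : k' ≤ w.length) (h : pos (w.drop k) = pos (w.drop k')) : k = k' := by
  have hl : (path w).length = w.length + 1 := path_length w
  have h1 := path_getElem w k (by omega)
  have h2 := path_getElem w k' (by omega)
  exact (List.Nodup.getElem_inj_iff hn (hi := by omega) (hj := by omega)).1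
    (h1.trans (h.trans h2.symm))

/-- the walk of a word -/
def wk (n : ℕ) (w : List Dir) : Fin (n + 1) → Fin 4 → ℤ :=
  fun i => E (pos (w.drop (n - i)))

theorem wk_last {n : ℕ} {w : List Dir} : wk n w (Fin.last n) = E (pos w) := by
  unfold wk
  rw [Fin.val_last, Nat.sub_self, List.drop_zero]

theorem vec_norm (d : Dir) : ∑ j, |E (vec d) j| = 1 := by
  rw [Fin.sum_univ_four]
  cases d <;> simp [E, vec]

theorem exists_dir (x : Fin 4 → ℤ) (h : ∑ j, |x j| = 1) : ∃ d, x = E (vec d) := by
  rw [Fin.sum_univ_four] at h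
  simp only [Int.abs_eq_natAbs] at h
  have hx : x = ![x 0, x 1, x 2, x 3] := by
    funext i
    fin_cases i <;> rfl
  rw [hx]
  obtain ⟨a, ha⟩ : ∃ a, a = x 0 := ⟨_, rfl⟩
  obtain ⟨b, hb⟩ : ∃ b, b = x 1 := ⟨_, rfl⟩
  obtain ⟨c, hc⟩ : ∃ c, c = x 2 := ⟨_, rfl⟩
  obtain ⟨e, he⟩ : ∃ e, e = x 3 := ⟨_, rfl⟩
  rw [← ha, ← hb, ← hc, ← he] at h ⊢
  clear hx ha hb hc he
  obtain ⟨ha1, ha2⟩ : -1 ≤ a ∧ a ≤ 1 := by omega
  obtain ⟨hb1, hb2⟩ : -1 ≤ b ∧ b ≤ 1 := by omega
  obtain ⟨hc1, hc2⟩ : -1 ≤ c ∧ c ≤ 1 := by omega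
  obtain ⟨he1, he2⟩ : -1 ≤ e ∧ e ≤ 1 := by omega
  interval_cases a <;> interval_cases b <;> interval_cases c <;> interval_cases e <;>
    first
    | (exfalso; omega)
    | exact ⟨.xp, rfl⟩
    | exact ⟨.xm, rfl⟩
    | exact ⟨.yp, rfl⟩
    | exact ⟨.ym, rfl⟩
    | exact ⟨.zp, rfl⟩
    | exact ⟨.zm, rfl⟩
    | exact ⟨.tp, rfl⟩
    | exact ⟨.tm, rfl⟩

theorem exists_word (f : ℕ → Fin 4 → ℤ) (h0 : f 0 = 0) : ∀ n : ℕ,
    (∀ i, i < n → ∃ d, f (i + 1) = f i + E (vec d)) →
    ∃ w : List Dir, w.length = n ∧ ∀ i, i ≤ n → E (pos (w.drop (n - i))) = f i := by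
  intro n
  induction n with
  | zero =>
    intro _
    refine ⟨[], rfl, fun i hi => ?_⟩
    have : i = 0 := by omega
    rw [this, h0]
    exact E_zero
  | succ n ih =>
    intro h
    obtain ⟨w, hw, hw'⟩ := ih (fun i hi => h i (by omega))
    obtain ⟨d, hd⟩ := h n (by omega)
    refine ⟨d :: w, by rw [List.length_cons, hw], fun i hi => ?_⟩
    rcases Nat.lt_or_ge n i with hni | hni
    · have : i = n + 1 := by omega
      rw [this, Nat.sub_self, List.drop_zero, pos, E_add, hd]
      have := hw' n le_rfl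
      rw [Nat.sub_self, List.drop_zero] at this
      rw [this]
    · have e : n + 1 - i = (n - i) + 1 := by omega
      rw [e, List.drop_succ_cons]
      exact hw' i hni

theorem bij (n : ℕ) : Set.BijOn (wk n) (SS n : Set (List Dir)) {ω | IsSAW n ω} := by
  refine ⟨?_, ?_, ?_⟩
  · intro w hw
    obtain ⟨hlen, hsaw⟩ := mem_SS.1 (Finset.mem_coe.1 hw)
    refine ⟨?_, ?_, ?_⟩
    · unfold wk
      rw [Fin.val_zero, Nat.sub_zero, ← hlen, List.drop_length]
      exact E_zero
    · intro i
      have hi := i.isLt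
      have h1 : ∀ j, wk n w i.succ j - wk n w i.castSucc j =
          E (vec (w.getD (n - (i + 1)) .xp)) j := by
        intro j
        unfold wk
        rw [Fin.val_succ, Fin.val_castSucc, pos_drop w (n - (i + 1)) (by omega), E_add]
        have e : n - ((i : ℕ) + 1) + 1 = n - i := by omega
        rw [e]
        simp
      simp only [h1]
      exact vec_norm _
    · intro i j hij
      have hi := i.isLt
      have hj := j.isLt
      have := saw_inj hsaw (by omega) (by omega) (E_inj hij)
      exact Fin.ext (by omega)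
  · intro w hw w' hw' h
    obtain ⟨hlen, hsaw⟩ := mem_SS.1 (Finset.mem_coe.1 hw)
    obtain ⟨hlen', hsaw'⟩ := mem_SS.1 (Finset.mem_coe.1 hw')
    have h1 : ∀ k, k ≤ n → pos (w.drop k) = pos (w'.drop k) := by
      intro k hk
      have h2 := congrFun h ⟨n - k, by omega⟩
      unfold wk at h2
      have e : n - (n - k) = k := by omega
      simp only [e] at h2
      exact E_inj h2
    apply List.ext_getElem (by omega)
    intro k hk hk'
    have h2 := pos_drop w k hk
    have h3 := pos_drop w' k hk'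
    rw [h1 k (by omega), h1 (k + 1) (by omega), h3, List.getD_eq_getElem _ _ hk,
      List.getD_eq_getElem _ _ hk'] at h2
    exact (vec_inj (add_left_cancel h2)).symm
  · rintro ω ⟨h0, h1, hinj⟩
    obtain ⟨w, hlen, hw⟩ := exists_word (fun i => if h : i < n + 1 then ω ⟨i, h⟩ else 0)
      (by
        simp only [Nat.zero_lt_succ, dite_true]
        exact h0) n (by
        intro i hi
        obtain ⟨d, hd⟩ := exists_dir _ (h1 ⟨i, hi⟩)
        refine ⟨d, ?_⟩
        rw [dif_pos (show i + 1 < n + 1 by omega), dif_pos (show i < n + 1 by omega), ← hd]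
        funext j
        have e1 : (⟨i, hi⟩ : Fin n).succ = ⟨i + 1, by omega⟩ := rfl
        have e2 : (⟨i, hi⟩ : Fin n).castSucc = ⟨i, by omega⟩ := rfl
        rw [e1, e2, Pi.add_apply]
        ring)
    have hwk : ∀ i : Fin (n + 1), E (pos (w.drop (n - i))) = ω i := by
      intro i
      rw [hw i (by omega), dif_pos i.isLt]
    refine ⟨w, ?_, ?_⟩
    · rw [Finset.mem_coe, mem_SS]
      refine ⟨hlen, ?_⟩
      unfold SAW
      rw [List.nodup_iff_getElem?_ne_getElem?]
      intro i j hij hj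
      rw [path_length] at hj
      rw [List.getElem?_eq_getElem (by rw [path_length]; omega),
        List.getElem?_eq_getElem (by rw [path_length]; omega)]
      intro he
      rw [Option.some.injEq, path_getElem, path_getElem] at he
      have g1 := hwk ⟨n - i, by omega⟩
      have g2 := hwk ⟨n - j, by omega⟩
      have e1 : n - (n - i) = i := by omega
      have e2 : n - (n - j) = j := by omega
      simp only [e1, e2] at g1 g2
      rw [he, g2] at g1
      have g3 := hinj g1
      rw [Fin.mk.injEq] at g3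
      omega
    · funext i
      exact hwk i

theorem ncard_eq (n : ℕ) : {ω | IsSAW n ω}.ncard = (SS n).card := by
  rw [← (bij n).image_eq, (bij n).injOn.ncard_image, Set.ncard_coe_finset]

theorem mean_eq (n : ℕ) (G : (Fin 4 → ℤ) → ℝ) :
    mean n G = (∑ u ∈ SS n, G (E (pos u))) / ((SS n).card : ℝ) := by
  unfold mean
  rw [ncard_eq]
  congr 1
  rw [← finsum_mem_eq_of_bijOn (f := fun w => G (E (pos w))) (wk n) (bij n) ?_,
    finsum_mem_coe_finset]
  intro w hw
  rw [wk_last]

/-! ### the norm -/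

theorem norm2_eq (x : Fin 4 → ℤ) :
    norm2 x = ‖(WithLp.toLp 2 (fun j => (x j : ℝ)) : EuclideanSpace ℝ (Fin 4))‖ := by
  unfold norm2
  rw [EuclideanSpace.norm_eq]
  simp

theorem norm2_add (x y : Fin 4 → ℤ) : norm2 (x + y) ≤ norm2 x + norm2 y := by
  rw [norm2_eq, norm2_eq, norm2_eq]
  have : (WithLp.toLp 2 (fun j => ((x + y) j : ℝ)) : EuclideanSpace ℝ (Fin 4)) =
      WithLp.toLp 2 (fun j => (x j : ℝ)) + WithLp.toLp 2 (fun j => (y j : ℝ)) := by
    rw [← WithLp.toLp_add]
    congr 1
    funext j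
    simp
  rw [this]
  exact norm_add_le _ _

theorem norm2_one_le {x : Fin 4 → ℤ} (h : x ≠ 0) : 1 ≤ norm2 x := by
  obtain ⟨j, hj⟩ : ∃ j, x j ≠ 0 := by
    by_contra hc
    push Not at hc
    exact h (funext hc)
  unfold norm2
  rw [Real.one_le_sqrt]
  have h1 : (1 : ℝ) ≤ (x j : ℝ) ^ 2 := by
    have : (1 : ℤ) ≤ (x j) ^ 2 := by
      have := Int.one_le_abs hj
      nlinarith [sq_abs (x j)]
    exact_mod_cast this
  exact h1.trans (Finset.single_le_sum (f := fun j => (x j : ℝ) ^ 2)
    (fun _ _ => sq_nonneg _) (Finset.mem_univ j))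

theorem norm2_vec (d : Dir) : norm2 (E (vec d)) = 1 := by
  unfold norm2
  rw [Fin.sum_univ_four]
  cases d <;> simp [E, vec]

theorem norm2_le (w : List Dir) : norm2 (E (pos w)) ≤ w.length := by
  induction w with
  | nil => simp [pos, E_zero, norm2]
  | cons d w ih =>
    rw [pos, E_add, List.length_cons]
    push_cast
    have := norm2_add (E (pos w)) (E (vec d))
    rw [norm2_vec] at this
    linarith

theorem pos_ne {w : List Dir} (h : SAW w) (h1 : 1 ≤ w.length) : E (pos w) ≠ 0 := by
  intro h2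
  rw [← E_zero] at h2
  have h3 := E_inj h2
  have h4 : pos (w.drop 0) = pos (w.drop w.length) := by
    rw [List.drop_zero, List.drop_length, h3]; rfl
  have := saw_inj h (by omega) le_rfl h4
  omega

/-- END -/
theorem end_thm : S_END :=
  ⟨mean_eq, fun _ h h1 => norm2_one_le (pos_ne h h1), norm2_le, by simp [E_zero, norm2], ncard_eq⟩

end

end Pool.Agent.P8H63.DF
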