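import Pool.Agent.N929.EG.Stm
import Pool.Agent.TH966.AK.Sys

/-!
# The pattern theorem from a bound for the objects with few moves of both kinds (project DF)
-/

set_option autoImplicit false

namespace Pool.Agent.P8H63.DF.Pat

open Finset Filter Topology
open scoped Classical
open Pool.Agent.N929.EG

variable {α σ : Type} (Y : TS α σ)

/-- a set of places which only changes at the places in conflict with `q` -/
theorem chg {n : ℕ} {w : α} {q : σ} (hw : w ∈ Y.K n) (hq : q ∈ Y.S w) (T T' : Finset σ)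
    (hT : T ⊆ Y.U (n + Y.s)) (h : ∀ q', ¬ Y.cf q q' → (q' ∈ T ↔ q' ∈ T')) :
    T.card ≤ T'.card + Y.d := by
  have hqU : q ∈ Y.U (n + Y.s) := (Y.S_U n (n + Y.s) w hw (Nat.le_add_right _ _)).1 hq
  have h1 : T ⊆ T' ∪ (Y.U (n + Y.s)).filter (fun q' => Y.cf q q') := by
    intro q' hq'
    rw [mem_union, mem_filter]
    by_cases hc : Y.cf q q'
    · exact Or.inr ⟨hT hq', hc⟩
    · exact Or.inl ((h q' hc).1 hq')
  calc T.card ≤ (T' ∪ (Y.U (n + Y.s)).filter (fun q' => Y.cf q q')).card := card_le_card h1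
    _ ≤ T'.card + ((Y.U (n + Y.s)).filter (fun q' => Y.cf q q')).card := card_union_le _ _
    _ ≤ T'.card + Y.d := Nat.add_le_add_left (Y.deg _ q hqU) _

theorem chs {n : ℕ} {w : α} {q : σ} (hw : w ∈ Y.K n) (hq : q ∈ Y.S w) :
    (Y.S w).card ≤ (Y.S (Y.ins w q)).card + Y.d ∧ (Y.S (Y.ins w q)).card ≤ (Y.S w).card + Y.d ∧
    (Y.B w).card ≤ (Y.B (Y.ins w q)).card + Y.d ∧ (Y.B (Y.ins w q)).card ≤ (Y.B w).card + Y.d := by
  have hi := Y.ins_K n w q hw hq
  have u1 := Y.S_U n (n + Y.s) w hw (Nat.le_add_right _ _)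
  have u2 := Y.S_U (n + Y.s) (n + Y.s) _ hi le_rfl
  exact ⟨chg Y hw hq _ _ u1.1 fun q' hc => (Y.ins_S n w q q' hw hq hc).symm,
    chg Y hw hq _ _ u2.1 fun q' hc => Y.ins_S n w q q' hw hq hc,
    chg Y hw hq _ _ u1.2 fun q' hc => (Y.ins_BB n w q q' hw hq hc).symm,
    chg Y hw hq _ _ u2.2 fun q' hc => Y.ins_BB n w q q' hw hq hc⟩

/-- one removal -/
theorem down_step (m β F : ℕ) (B : Finset α) (hB : B ⊆ Y.K (m + Y.s))
    (hw : ∀ w ∈ B, β ≤ (Y.B w).card ∧ (Y.S w).card ≤ F) :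
    ∃ B' : Finset α, B' ⊆ Y.K m ∧
      (∀ w ∈ B', β ≤ (Y.B w).card + Y.d ∧ (Y.S w).card ≤ F + Y.d) ∧
      B.card * β ≤ B'.card * (F + Y.d) := by
  have hrK : ∀ w q, w ∈ Y.K (m + Y.s) → q ∈ Y.B w → Y.rem w q ∈ Y.K m := fun w q h1 h2 => by
    simpa using Y.rem_K (m + Y.s) w q h1 h2
  set B' : Finset α := B.biUnion (fun w => (Y.B w).image (fun q => Y.rem w q)) with hB'
  have hmem : ∀ w', w' ∈ B' ↔ ∃ w ∈ B, ∃ q ∈ Y.B w, Y.rem w q = w' := by
    intro w'
    rw [hB', Finset.mem_biUnion]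
    constructor
    · rintro ⟨w, hwB, hw'⟩
      rw [Finset.mem_image] at hw'
      obtain ⟨q, hq, he⟩ := hw'
      exact ⟨w, hwB, q, hq, he⟩
    · rintro ⟨w, hwB, q, hq, he⟩
      exact ⟨w, hwB, Finset.mem_image.2 ⟨q, hq, he⟩⟩
  have hst : ∀ w' ∈ B', β ≤ (Y.B w').card + Y.d ∧ (Y.S w').card ≤ F + Y.d := by
    intro w' hw'
    obtain ⟨w, hwB, q, hq, rfl⟩ := (hmem w').mp hw'
    have h1 := hrK w q (hB hwB) hq
    have h2 := Y.rem_S _ w q (hB hwB) hq
    have h3 := Y.ins_rem _ w q (hB hwB) hq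
    have h4 := chs Y h1 h2
    rw [h3] at h4
    have h7 := hw w hwB
    omega
  refine ⟨B', ?_, hst, ?_⟩
  · intro w' hw'
    obtain ⟨w, hwB, q, hq, rfl⟩ := (hmem w').mp hw'
    exact hrK w q (hB hwB) hq
  · calc B.card * β = ∑ _w ∈ B, β := by rw [Finset.sum_const, smul_eq_mul]
      _ ≤ ∑ w ∈ B, (Y.B w).card := Finset.sum_le_sum (fun w h => (hw w h).1)
      _ = (B.sigma (fun w => Y.B w)).card := by rw [Finset.card_sigma]
      _ ≤ (B'.sigma (fun w => Y.S w)).card := by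
          apply Finset.card_le_card_of_injOn
            (fun x => ⟨Y.rem x.1 x.2, x.2⟩)
          · rintro ⟨w, q⟩ hx
            rw [Finset.mem_coe, Finset.mem_sigma] at hx
            rw [Finset.mem_coe, Finset.mem_sigma]
            exact ⟨(hmem _).mpr ⟨w, hx.1, q, hx.2, rfl⟩, Y.rem_S _ w q (hB hx.1) hx.2⟩
          · rintro ⟨w, q⟩ hx ⟨w', q'⟩ hx' he
            rw [Finset.mem_coe, Finset.mem_sigma] at hx hx'
            have h5 := Y.ins_rem _ w q (hB hx.1) hx.2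
            have h5' := Y.ins_rem _ w' q' (hB hx'.1) hx'.2
            simp only [Sigma.mk.injEq, heq_eq_eq] at he
            obtain ⟨he1, he2⟩ := he
            subst he2
            have e1 : w = w' := by rw [← h5, ← h5', he1]
            rw [e1]
      _ = ∑ w ∈ B', (Y.S w).card := by rw [Finset.card_sigma]
      _ ≤ ∑ _w ∈ B', (F + Y.d) := Finset.sum_le_sum (fun w h => (hst w h).2)
      _ = B'.card * (F + Y.d) := by rw [Finset.sum_const, smul_eq_mul]

/-- one insertion -/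
theorem up_step (m β F : ℕ) (B : Finset α) (hB : B ⊆ Y.K m)
    (hw : ∀ w ∈ B, F ≤ (Y.S w).card ∧ (Y.B w).card ≤ β) :
    ∃ B' : Finset α, B' ⊆ Y.K (m + Y.s) ∧
      (∀ w ∈ B', F ≤ (Y.S w).card + Y.d ∧ (Y.B w).card ≤ β + Y.d) ∧
      B.card * F ≤ B'.card * (β + Y.d) := by
  set B' : Finset α := B.biUnion (fun w => (Y.S w).image (fun q => Y.ins w q)) with hB'
  have hmem : ∀ w', w' ∈ B' ↔ ∃ w ∈ B, ∃ q ∈ Y.S w, Y.ins w q = w' := by
    intro w'
    rw [hB', Finset.mem_biUnion]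
    constructor
    · rintro ⟨w, hwB, hw'⟩
      rw [Finset.mem_image] at hw'
      obtain ⟨q, hq, he⟩ := hw'
      exact ⟨w, hwB, q, hq, he⟩
    · rintro ⟨w, hwB, q, hq, he⟩
      exact ⟨w, hwB, Finset.mem_image.2 ⟨q, hq, he⟩⟩
  have hst : ∀ w' ∈ B', F ≤ (Y.S w').card + Y.d ∧ (Y.B w').card ≤ β + Y.d := by
    intro w' hw'
    obtain ⟨w, hwB, q, hq, rfl⟩ := (hmem w').mp hw'
    have h4 := chs Y (hB hwB) hq
    have h7 := hw w hwB
    omega
  refine ⟨B', ?_, hst, ?_⟩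
  · intro w' hw'
    obtain ⟨w, hwB, q, hq, rfl⟩ := (hmem w').mp hw'
    exact Y.ins_K m w q (hB hwB) hq
  · calc B.card * F = ∑ _w ∈ B, F := by rw [Finset.sum_const, smul_eq_mul]
      _ ≤ ∑ w ∈ B, (Y.S w).card := Finset.sum_le_sum (fun w h => (hw w h).1)
      _ = (B.sigma (fun w => Y.S w)).card := by rw [Finset.card_sigma]
      _ ≤ (B'.sigma (fun w => Y.B w)).card := by
          apply Finset.card_le_card_of_injOn
            (fun x => ⟨Y.ins x.1 x.2, x.2⟩)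
          · rintro ⟨w, q⟩ hx
            rw [Finset.mem_coe, Finset.mem_sigma] at hx
            rw [Finset.mem_coe, Finset.mem_sigma]
            exact ⟨(hmem _).mpr ⟨w, hx.1, q, hx.2, rfl⟩, Y.ins_B _ w q (hB hx.1) hx.2⟩
          · rintro ⟨w, q⟩ hx ⟨w', q'⟩ hx' he
            rw [Finset.mem_coe, Finset.mem_sigma] at hx hx'
            have h5 := Y.rem_ins _ w q (hB hx.1) hx.2
            have h5' := Y.rem_ins _ w' q' (hB hx'.1) hx'.2
            simp only [Sigma.mk.injEq, heq_eq_eq] at he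
            obtain ⟨he1, he2⟩ := he
            subst he2
            have e1 : w = w' := by rw [← h5, ← h5', he1]
            rw [e1]
      _ = ∑ w ∈ B', (Y.B w).card := by rw [Finset.card_sigma]
      _ ≤ ∑ _w ∈ B', (β + Y.d) := Finset.sum_le_sum (fun w h => (hst w h).2)
      _ = B'.card * (β + Y.d) := by rw [Finset.sum_const, smul_eq_mul]

/-- `j` removals -/
theorem down (F0 β0 : ℕ) :
    ∀ (j m β F : ℕ) (B : Finset α), β0 + Y.d * j ≤ β → F + Y.d * j ≤ F0 →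
      B ⊆ Y.K (m + Y.s * j) →
      (∀ w ∈ B, β ≤ (Y.B w).card ∧ (Y.S w).card ≤ F) →
      B.card * β0 ^ j ≤ (Y.K m).card * F0 ^ j := by
  intro j
  induction j with
  | zero =>
    intro m β F B _ _ hB _
    simp only [pow_zero, mul_one]
    exact Finset.card_le_card (by simpa using hB)
  | succ j ih =>
    intro m β F B hβ hF hB hw
    obtain ⟨B', hB'1, hB'2, hB'3⟩ := down_step Y (m + Y.s * j) β F B
      (by rw [show m + Y.s * j + Y.s = m + Y.s * (j + 1) by ring]; exact hB) hw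
    have e1 : Y.d * (j + 1) = Y.d * j + Y.d := by ring
    rw [e1] at hβ hF
    have h1 := ih m (β - Y.d) (F + Y.d) B' (by omega) (by omega) hB'1 (fun w h => by
      have := hB'2 w h
      omega)
    have h2 : B.card * β0 ≤ B'.card * F0 :=
      (Nat.mul_le_mul_left _ (by omega)).trans (hB'3.trans (Nat.mul_le_mul_left _ (by omega)))
    calc B.card * β0 ^ (j + 1) = (B.card * β0) * β0 ^ j := by ring
      _ ≤ (B'.card * F0) * β0 ^ j := Nat.mul_le_mul_right _ h2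
      _ = (B'.card * β0 ^ j) * F0 := by ring
      _ ≤ ((Y.K m).card * F0 ^ j) * F0 := Nat.mul_le_mul_right _ h1
      _ = (Y.K m).card * F0 ^ (j + 1) := by ring

/-- `j` insertions -/
theorem up (F0 β0 : ℕ) :
    ∀ (j m β F : ℕ) (B : Finset α), F0 + Y.d * j ≤ F → β + Y.d * j ≤ β0 →
      B ⊆ Y.K m →
      (∀ w ∈ B, F ≤ (Y.S w).card ∧ (Y.B w).card ≤ β) →
      B.card * F0 ^ j ≤ (Y.K (m + Y.s * j)).card * β0 ^ j := by
  intro j
  induction j with
  | zero =>
    intro m β F B _ _ hB _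
    simp only [pow_zero, mul_one, mul_zero, add_zero]
    exact Finset.card_le_card hB
  | succ j ih =>
    intro m β F B hF hβ hB hw
    obtain ⟨B', hB'1, hB'2, hB'3⟩ := up_step Y m β F B hB hw
    have e1 : Y.d * (j + 1) = Y.d * j + Y.d := by ring
    rw [e1] at hβ hF
    have h1 := ih (m + Y.s) (β + Y.d) (F - Y.d) B' (by omega) (by omega) hB'1 (fun w h => by
      have := hB'2 w h
      omega)
    have h2 : B.card * F0 ≤ B'.card * β0 :=
      (Nat.mul_le_mul_left _ (by omega)).trans (hB'3.trans (Nat.mul_le_mul_left _ (by omega)))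
    calc B.card * F0 ^ (j + 1) = (B.card * F0) * F0 ^ j := by ring
      _ ≤ (B'.card * β0) * F0 ^ j := Nat.mul_le_mul_right _ h2
      _ = (B'.card * F0 ^ j) * β0 := by ring
      _ ≤ ((Y.K (m + Y.s + Y.s * j)).card * β0 ^ j) * β0 := Nat.mul_le_mul_right _ h1
      _ = (Y.K (m + Y.s * (j + 1))).card * β0 ^ (j + 1) := by
          rw [show m + Y.s + Y.s * j = m + Y.s * (j + 1) by ring]
          ring

/-- many moves of one kind, few of the other -/
theorem few {M0 k M n j : ℕ} (hM : M = M0 * k) (hj : j = n / M) {x : ℕ}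
    (h3 : ¬ M0 * x ≤ n) : k * j ≤ x := by
  have hjn : M * j ≤ n := by rw [hj]; exact Nat.mul_div_le n M
  by_contra hcon
  have h4 : M0 * x ≤ M0 * (k * j) := Nat.mul_le_mul_left _ (by omega)
  apply h3
  calc M0 * x ≤ M0 * (k * j) := h4
    _ = M * j := by rw [hM]; ring
    _ ≤ n := hjn

theorem pat (μ : ℝ) (hμ : 1 ≤ μ)
    (hup : ∀ τ : ℝ, 0 < τ → ∃ C1 : ℝ, ∀ n : ℕ, ((Y.K n).card : ℝ) ≤ C1 * ((1 + τ) * μ) ^ n)
    (hpoor : ∃ (M0 : ℕ) (ρ C0 : ℝ), 1 ≤ M0 ∧ 0 ≤ ρ ∧ ρ < μ ∧ ∀ n : ℕ,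
      (((Y.K n).filter (fun w => M0 * (Y.S w).card ≤ n ∧ M0 * (Y.B w).card ≤ n)).card : ℝ) ≤
        C0 * ρ ^ n) : Pat Y μ := by
  obtain ⟨M0, ρ, C0, hM0, hρ0, hρ1, hP⟩ := hpoor
  have hμ0 : 0 < μ := by linarith
  obtain ⟨R, hR⟩ : ∃ R : ℕ, 4 * (2 * μ) ^ Y.s ≤ (R : ℝ) := exists_nat_ge _
  have h2μ : (1 : ℝ) ≤ (2 * μ) ^ Y.s := one_le_pow₀ (by linarith)
  have hR4 : 4 ≤ R := by
    have : (4 : ℝ) ≤ R := by linarith
    exact_mod_cast this
  obtain ⟨k, hk⟩ : ∃ k : ℕ, k = R * (1 + Y.d) + Y.d + Y.s + 1 := ⟨_, rfl⟩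
  obtain ⟨M, hM⟩ : ∃ M : ℕ, M = M0 * k := ⟨_, rfl⟩
  have hkM : k ≤ M := by rw [hM]; exact Nat.le_mul_of_pos_left _ hM0
  have hM1 : 1 ≤ M := by omega
  have hM0M : M0 ≤ M := by rw [hM]; exact Nat.le_mul_of_pos_right _ (by omega)
  obtain ⟨τ, hτ⟩ : ∃ τ : ℝ, τ = 1 / (2 * M) := ⟨_, rfl⟩
  obtain ⟨θ₁, hθ₁⟩ : ∃ θ₁ : ℝ, θ₁ = 1 - 1 / (2 * M) := ⟨_, rfl⟩
  have hM' : (1 : ℝ) ≤ M := by exact_mod_cast hM1
  have hτ0 : 0 < τ := by rw [hτ]; positivity
  have hθ2 : 1 / (2 * (M : ℝ)) ≤ 1 / 2 := by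
    rw [div_le_div_iff₀ (by positivity) (by norm_num)]; linarith
  have hτ1 : τ ≤ 1 := by rw [hτ]; linarith
  have hθ0 : 0 < θ₁ := by rw [hθ₁]; linarith
  have hθ1 : θ₁ < 1 := by
    rw [hθ₁]
    have : 0 < 1 / (2 * (M : ℝ)) := by positivity
    linarith
  obtain ⟨C1, hC1⟩ := hup τ hτ0
  have hC1' : 0 ≤ C1 := by
    have h := hC1 0
    simp only [pow_zero, mul_one] at h
    exact le_trans (Nat.cast_nonneg _) h
  have hMμ : 1 ≤ (1 + τ) * μ := by nlinarith
  -- many downward moves and few upward moves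
  have hD : ∀ n : ℕ, (((Y.K n).filter (fun w => M * (Y.S w).card ≤ n ∧
      ¬ M0 * (Y.B w).card ≤ n)).card : ℝ) ≤
      C1 * ((1 + τ) * μ) ^ n * (1 / 4) ^ (n / M) := by
    intro n
    set D := (Y.K n).filter (fun w => M * (Y.S w).card ≤ n ∧ ¬ M0 * (Y.B w).card ≤ n) with hDd
    have hDK : D ⊆ Y.K n := filter_subset _ _
    obtain ⟨j, hj⟩ : ∃ j, j = n / M := ⟨_, rfl⟩
    rw [← hj]
    have hjn : M * j ≤ n := by rw [hj]; exact Nat.mul_div_le n M
    rcases Nat.eq_zero_or_pos j with h0 | h0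
    · rw [h0, pow_zero, mul_one]
      refine le_trans ?_ (hC1 n)
      exact_mod_cast card_le_card hDK
    · have hkj : k * j ≤ n := (Nat.mul_le_mul_right j hkM).trans hjn
      have hsj : Y.s * j ≤ n := by
        refine le_trans (Nat.mul_le_mul_right j ?_) hkj
        omega
      have h1 := down Y ((1 + Y.d) * j) (R * ((1 + Y.d) * j)) j (n - Y.s * j) (k * j) j D
        (by
          have : R * ((1 + Y.d) * j) + Y.d * j = (R * (1 + Y.d) + Y.d) * j := by ring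
          rw [this]
          exact Nat.mul_le_mul_right j (by omega))
        (by
          have : (1 + Y.d) * j = j + Y.d * j := by ring
          rw [this]) (by
          rw [Nat.sub_add_cancel hsj]; exact hDK) (by
          intro w hw
          rw [hDd, mem_filter] at hw
          obtain ⟨-, h2, h3⟩ := hw
          constructor
          · exact few hM hj h3
          · rw [hj, Nat.le_div_iff_mul_le (by omega), mul_comm]
            exact h2)
      have hpos : 0 < ((1 + Y.d) * j) ^ j := by positivity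
      have h2 : D.card * R ^ j ≤ (Y.K (n - Y.s * j)).card := by
        refine Nat.le_of_mul_le_mul_right ?_ hpos
        calc D.card * R ^ j * ((1 + Y.d) * j) ^ j = D.card * (R * ((1 + Y.d) * j)) ^ j := by
              rw [mul_pow R]; ring
          _ ≤ _ := h1
      have h2' : (D.card : ℝ) * 4 ^ j ≤ ((Y.K (n - Y.s * j)).card : ℝ) := by
        have h3 : D.card * 4 ^ j ≤ (Y.K (n - Y.s * j)).card :=
          (Nat.mul_le_mul_left _ (Nat.pow_le_pow_left hR4 j)).trans h2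
        exact_mod_cast h3
      have h8 := hC1 (n - Y.s * j)
      have h9 : C1 * ((1 + τ) * μ) ^ (n - Y.s * j) ≤ C1 * ((1 + τ) * μ) ^ n := by
        apply mul_le_mul_of_nonneg_left _ hC1'
        exact pow_le_pow_right₀ hMμ (Nat.sub_le _ _)
      have h10 : (D.card : ℝ) * 4 ^ j ≤
          (C1 * ((1 + τ) * μ) ^ n * (1 / 4) ^ j) * 4 ^ j := by
        refine le_trans h2' (le_trans h8 (le_trans h9 (le_of_eq ?_)))
        rw [mul_assoc (C1 * ((1 + τ) * μ) ^ n), ← mul_pow]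
        norm_num
      exact le_of_mul_le_mul_right h10 (by positivity)
  -- many upward moves and few downward moves
  have hE : ∀ n : ℕ, (((Y.K n).filter (fun w => M * (Y.B w).card ≤ n ∧
      ¬ M0 * (Y.S w).card ≤ n)).card : ℝ) ≤
      C1 * ((1 + τ) * μ) ^ n * (1 / 4) ^ (n / M) := by
    intro n
    set D := (Y.K n).filter (fun w => M * (Y.B w).card ≤ n ∧ ¬ M0 * (Y.S w).card ≤ n) with hDd
    have hDK : D ⊆ Y.K n := filter_subset _ _
    obtain ⟨j, hj⟩ : ∃ j, j = n / M := ⟨_, rfl⟩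
    rw [← hj]
    rcases Nat.eq_zero_or_pos j with h0 | h0
    · rw [h0, pow_zero, mul_one]
      refine le_trans ?_ (hC1 n)
      exact_mod_cast card_le_card hDK
    · have h1 := up Y (R * ((1 + Y.d) * j)) ((1 + Y.d) * j) j n j (k * j) D
        (by
          have : R * ((1 + Y.d) * j) + Y.d * j = (R * (1 + Y.d) + Y.d) * j := by ring
          rw [this]
          exact Nat.mul_le_mul_right j (by omega))
        (by
          have : (1 + Y.d) * j = j + Y.d * j := by ring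
          rw [this]) hDK (by
          intro w hw
          rw [hDd, mem_filter] at hw
          obtain ⟨-, h2, h3⟩ := hw
          constructor
          · exact few hM hj h3
          · rw [hj, Nat.le_div_iff_mul_le (by omega), mul_comm]
            exact h2)
      have hpos : 0 < ((1 + Y.d) * j) ^ j := by positivity
      have h2 : D.card * R ^ j ≤ (Y.K (n + Y.s * j)).card := by
        refine Nat.le_of_mul_le_mul_right ?_ hpos
        calc D.card * R ^ j * ((1 + Y.d) * j) ^ j = D.card * (R * ((1 + Y.d) * j)) ^ j := by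
              rw [mul_pow R]; ring
          _ ≤ _ := h1
      have h2' : (D.card : ℝ) * (R : ℝ) ^ j ≤ ((Y.K (n + Y.s * j)).card : ℝ) := by
        exact_mod_cast h2
      have h8 := hC1 (n + Y.s * j)
      have h11 : ((1 + τ) * μ) ^ Y.s * 4 ≤ (R : ℝ) := by
        have h12 : ((1 + τ) * μ) ^ Y.s ≤ (2 * μ) ^ Y.s := by
          apply pow_le_pow_left₀ (by linarith)
          nlinarith
        linarith
      have h13 : (D.card : ℝ) * (((1 + τ) * μ) ^ Y.s * 4) ^ j ≤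
          C1 * ((1 + τ) * μ) ^ (n + Y.s * j) := by
        refine le_trans ?_ (h2'.trans h8)
        apply mul_le_mul_of_nonneg_left _ (Nat.cast_nonneg _)
        exact pow_le_pow_left₀ (by positivity) h11 j
      have h14 : 0 < (((1 + τ) * μ) ^ Y.s) ^ j * 4 ^ j := by positivity
      rw [mul_pow, pow_add, pow_mul] at h13
      refine le_of_mul_le_mul_right ?_ h14
      calc (D.card : ℝ) * ((((1 + τ) * μ) ^ Y.s) ^ j * 4 ^ j) ≤
          C1 * (((1 + τ) * μ) ^ n * (((1 + τ) * μ) ^ Y.s) ^ j) := h13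
        _ = C1 * ((1 + τ) * μ) ^ n * (1 / 4) ^ j * ((((1 + τ) * μ) ^ Y.s) ^ j * 4 ^ j) := by
            have h15 : ((1 : ℝ) / 4) ^ j * 4 ^ j = 1 := by
              rw [← mul_pow]; norm_num
            calc C1 * (((1 + τ) * μ) ^ n * (((1 + τ) * μ) ^ Y.s) ^ j) =
                C1 * (((1 + τ) * μ) ^ n * (((1 + τ) * μ) ^ Y.s) ^ j) *
                  (((1 : ℝ) / 4) ^ j * 4 ^ j) := by rw [h15, mul_one]
              _ = _ := by ring
  have hθρ : ρ / μ < 1 := by rw [div_lt_one hμ0]; exact hρ1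
  refine ⟨M, max θ₁ (ρ / μ), |C0| + 8 * C1, hM1, lt_max_of_lt_left hθ0, max_lt hθ1 hθρ,
    by positivity, ?_⟩
  intro n
  set θ := max θ₁ (ρ / μ) with hθ
  have hθ0 : 0 < θ := lt_max_of_lt_left hθ0
  have hcov : bad Y M n ⊆
      ((Y.K n).filter (fun w => M0 * (Y.S w).card ≤ n ∧ M0 * (Y.B w).card ≤ n) ∪
        (Y.K n).filter (fun w => M * (Y.S w).card ≤ n ∧ ¬ M0 * (Y.B w).card ≤ n)) ∪
        (Y.K n).filter (fun w => M * (Y.B w).card ≤ n ∧ ¬ M0 * (Y.S w).card ≤ n) := by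
    intro w hw
    unfold bad at hw
    rw [mem_filter] at hw
    simp only [mem_union, mem_filter]
    obtain ⟨h1, h2⟩ := hw
    rcases h2 with h2 | h2
    · have h3 : M0 * (Y.S w).card ≤ n := (Nat.mul_le_mul_right _ hM0M).trans h2
      by_cases h4 : M0 * (Y.B w).card ≤ n
      · exact Or.inl (Or.inl ⟨h1, h3, h4⟩)
      · exact Or.inl (Or.inr ⟨h1, h2, h4⟩)
    · have h3 : M0 * (Y.B w).card ≤ n := (Nat.mul_le_mul_right _ hM0M).trans h2
      by_cases h4 : M0 * (Y.S w).card ≤ n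
      · exact Or.inl (Or.inl ⟨h1, h4, h3⟩)
      · exact Or.inr ⟨h1, h2, h4⟩
  have hcard : ((bad Y M n).card : ℝ) ≤
      (((Y.K n).filter (fun w => M0 * (Y.S w).card ≤ n ∧ M0 * (Y.B w).card ≤ n)).card : ℝ) +
      (((Y.K n).filter (fun w => M * (Y.S w).card ≤ n ∧ ¬ M0 * (Y.B w).card ≤ n)).card : ℝ) +
      (((Y.K n).filter (fun w => M * (Y.B w).card ≤ n ∧ ¬ M0 * (Y.S w).card ≤ n)).card : ℝ) := by
    exact_mod_cast (card_le_card hcov).trans ((card_union_le _ _).trans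
      (Nat.add_le_add_right (card_union_le _ _) _))
  have hX : C1 * ((1 + τ) * μ) ^ n * (1 / 4) ^ (n / M) ≤ 4 * C1 * (θ * μ) ^ n := by
    have h1 := TH966.AK.Sys.expo hM1 hτ hθ₁ n
    have h2 : θ₁ ^ n ≤ θ ^ n := pow_le_pow_left₀ (by linarith) (le_max_left _ _) n
    calc C1 * ((1 + τ) * μ) ^ n * (1 / 4) ^ (n / M)
        = C1 * μ ^ n * ((1 + τ) ^ n * (1 / 4) ^ (n / M)) := by rw [mul_pow]; ring
      _ ≤ C1 * μ ^ n * (4 * θ ^ n) := by
          apply mul_le_mul_of_nonneg_left _ (by positivity)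
          linarith
      _ = 4 * C1 * (θ * μ) ^ n := by rw [mul_pow]; ring
  have hY : ρ ^ n ≤ (θ * μ) ^ n := by
    apply pow_le_pow_left₀ hρ0
    have h1 : ρ / μ ≤ θ := le_max_right _ _
    rwa [div_le_iff₀ hμ0] at h1
  have hZ : C0 * ρ ^ n ≤ |C0| * (θ * μ) ^ n :=
    (mul_le_mul_of_nonneg_right (le_abs_self C0) (by positivity)).trans
      (mul_le_mul_of_nonneg_left hY (abs_nonneg _))
  have q1 := hP n
  have q2 := hD n
  have q3 := hE n
  calc ((bad Y M n).card : ℝ) ≤ _ := hcard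
    _ ≤ |C0| * (θ * μ) ^ n + 4 * C1 * (θ * μ) ^ n + 4 * C1 * (θ * μ) ^ n :=
        add_le_add (add_le_add (q1.trans hZ) (q2.trans hX)) (q3.trans hX)
    _ = (|C0| + 8 * C1) * (θ * μ) ^ n := by ring

end Pool.Agent.P8H63.DF.Pat
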