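import Pool.Agent.P8H98.DF.Stm
import Pool.Agent.P8H63.DF.Sat0
import Pool.Agent.P8H63.DF.Pat

/-!
# Project DF (helper98): packages SAT and PAT
-/

set_option autoImplicit false

namespace Pool.Agent.P8H63.DF

open Pool.Agent.P8H98.DF

theorem sat : S_SAT := fun w h4 h => sat0 w h4 h

theorem patT : S_PAT := fun _ _ Y μ h1 h2 h3 => Pat.pat Y μ h1 h2 h3

end Pool.Agent.P8H63.DF
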