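import Pool.Agent.P8H98.DF.Stm2

/-! # Project DF, package PHI: the rate function `√n log n` -/

set_option autoImplicit false

namespace Pool.Agent.P8H63.DF

open Filter Topology
open Pool.Agent.N929.EG
open Pool.Agent.P8H98.DF

theorem phi_phi : S_PHI := by
  intro K₁ hK
  refine ⟨⟨?_, ?_, ?_⟩, ?_⟩
  · intro n hn
    have hn' : (2 : ℝ) ≤ n := by exact_mod_cast hn
    have h0 : 0 ≤ Real.log (n : ℝ) := Real.log_nonneg (by linarith)
    have h1 : 1 ≤ Real.sqrt n := by rw [Real.one_le_sqrt]; linarith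
    have h2 : Real.log (n : ℝ) ≤ Real.sqrt n * Real.log n := le_mul_of_one_le_left h0 h1
    exact h2.trans (le_mul_of_one_le_left (h0.trans h2) hK)
  · refine ⟨4, by norm_num, fun n m hn hnm hm => ?_⟩
    have hn' : (2 : ℝ) ≤ n := by exact_mod_cast hn
    have hm' : (m : ℝ) ≤ 2 * n := by exact_mod_cast hm
    have hnm' : (n : ℝ) ≤ m := by exact_mod_cast hnm
    have h0 : 0 ≤ Real.log (m : ℝ) := Real.log_nonneg (by linarith)
    have h1 : Real.log (m : ℝ) ≤ 2 * Real.log n := by
      have h2 : Real.log (m : ℝ) ≤ Real.log (n ^ 2 : ℝ) := Real.log_le_log (by linarith) (by nlinarith)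
      rwa [Real.log_pow, Nat.cast_ofNat] at h2
    have h3 : Real.sqrt m ≤ 2 * Real.sqrt n := by
      rw [show (2 : ℝ) * Real.sqrt n = Real.sqrt (4 * n) by
        rw [Real.sqrt_mul (by norm_num), show (4 : ℝ) = 2 ^ 2 by norm_num, Real.sqrt_sq (by norm_num)]]
      exact Real.sqrt_le_sqrt (by linarith)
    have h4 : Real.sqrt m * Real.log m ≤ (2 * Real.sqrt n) * (2 * Real.log n) :=
      mul_le_mul h3 h1 h0 (by positivity)
    calc K₁ * (Real.sqrt m * Real.log m) ≤ K₁ * ((2 * Real.sqrt n) * (2 * Real.log n)) :=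
          mul_le_mul_of_nonneg_left h4 (by linarith)
      _ = _ := by ring
  · have h1 : Tendsto (fun x : ℝ => Real.log x / x ^ (1 / 2 : ℝ)) atTop (𝓝 0) :=
      (isLittleO_log_rpow_atTop (show (0 : ℝ) < 1 / 2 by norm_num)).tendsto_div_nhds_zero
    have h2 := (h1.comp tendsto_natCast_atTop_atTop).const_mul K₁
    rw [mul_zero] at h2
    refine h2.congr (fun n => ?_)
    simp only [Function.comp_apply]
    rw [← Real.sqrt_eq_rpow]
    rcases Nat.eq_zero_or_pos n with rfl | hn
    · simp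
    · have hn' : (0 : ℝ) < n := by exact_mod_cast hn
      have h3 : Real.sqrt n ≠ 0 := (Real.sqrt_pos.mpr hn').ne'
      have h4 : Real.sqrt n * Real.sqrt n = n := Real.mul_self_sqrt hn'.le
      have h5 : Real.log (n : ℝ) / Real.sqrt n = (Real.sqrt n * Real.log n) / n := by
        rw [div_eq_div_iff h3 hn'.ne']
        linear_combination (-Real.log (n : ℝ)) * h4
      rw [h5]
      ring
  · intro n hn
    have hn' : (2 : ℝ) ≤ n := by exact_mod_cast hn
    have hn0 : (0 : ℝ) < n := by linarith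
    have h0 : 0 ≤ Real.log (n : ℝ) := Real.log_nonneg (by linarith)
    have h1 : K₁ * (Real.sqrt n * Real.log n) / n = K₁ * ((n : ℝ) ^ (-(1 / 2) : ℝ) * Real.log n) := by
      have h2 : (n : ℝ) ^ (-(1 / 2) : ℝ) = Real.sqrt n / n := by
        rw [Real.sqrt_eq_rpow, ← Real.rpow_sub_one hn0.ne']
        norm_num
      rw [h2]
      ring
    have h3 : Real.sqrt ((n : ℝ) ^ (-(1 / 2) : ℝ)) = (n : ℝ) ^ (-(1 / 4) : ℝ) := by
      rw [Real.sqrt_eq_rpow, ← Real.rpow_mul hn0.le]
      norm_num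
    rw [h1, Real.sqrt_mul (by linarith), Real.sqrt_mul (Real.rpow_nonneg hn0.le _), h3]

end Pool.Agent.P8H63.DF
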