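import Pool.Agent.P8H98.DF.Stm2
import Pool.Agent.TH546.GD.Piece

/-! # Project DF, package UPB: Hammersley and Welsh for `ℤ⁴` -/

set_option autoImplicit false

namespace Pool.Agent.P8H63.DF

open Filter Topology
open scoped Classical
open Pool.Agent.H725R2.SB
open Pool.Agent.TH546.GD
open Pool.Agent.P8H98.DF (Z4 Dir vec neg Om4 S_UPB)

/-- the level functional on the steps of `ℤ⁴` -/
noncomputable def lev4 : Lev Om4 where
  F := AddMonoidHom.fst ℤ (ℤ × ℤ × ℤ)
  r := AddEquiv.neg Z4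
  e := vec .xp
  le_one := by
    intro v hv
    unfold Om4 at hv
    rw [Finset.mem_image] at hv
    obtain ⟨d, -, rfl⟩ := hv
    cases d <;> simp [vec]
  rF := by
    intro v
    simp
  rΩ := by
    intro v hv
    unfold Om4 at hv ⊢
    rw [Finset.mem_image] at hv ⊢
    obtain ⟨d, -, rfl⟩ := hv
    exact ⟨neg d, Finset.mem_univ _, Pool.Agent.P8H98.DF.vec_neg d⟩
  rr := by
    intro v
    simp
  eΩ := Finset.mem_image.mpr ⟨.xp, Finset.mem_univ _, rfl⟩
  Fe := rfl

theorem HG4_le {m : ℕ} (hm : 2 ≤ m) :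
    HG Om4 m ≤ (12 + 2 * Real.log (mu Om4)) * (Real.sqrt m * Real.log m) := by
  have hmu := Real.log_nonneg (one_le_mu lev4)
  have hm' : (2 : ℝ) ≤ m := by exact_mod_cast hm
  have hl2 := Real.log_two_gt_d9
  have hlog : Real.log 2 ≤ Real.log m := Real.log_le_log (by norm_num) hm'
  have hs1 : 1 ≤ Real.sqrt m := by
    rw [Real.one_le_sqrt]; linarith
  have h1 : (Nat.sqrt (2 * m) : ℝ) ≤ 2 * Real.sqrt m := by
    have h2 : (Nat.sqrt (2 * m) : ℝ) ^ 2 ≤ 2 * m := by
      have := Nat.sqrt_le' (2 * m)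
      exact_mod_cast this
    have h3 : Real.sqrt m ^ 2 = m := Real.sq_sqrt (by linarith)
    nlinarith [Nat.cast_nonneg (α := ℝ) (Nat.sqrt (2 * m))]
  have h2 : Real.log ((m : ℝ) + 1) ≤ 2 * Real.log m := by
    calc Real.log ((m : ℝ) + 1) ≤ Real.log ((m : ℝ) ^ 2) :=
          Real.log_le_log (by positivity) (by nlinarith)
      _ = 2 * Real.log m := by rw [Real.log_pow]; norm_num
  have h0 : 0 ≤ Real.log ((m : ℝ) + 1) := Real.log_nonneg (by linarith)
  have h3 : ((Nat.sqrt (2 * m) : ℝ) + 1) * Real.log ((m : ℝ) + 1) ≤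
      (3 * Real.sqrt m) * (2 * Real.log m) :=
    mul_le_mul (by linarith) h2 h0 (by positivity)
  have h4 : Real.log (mu Om4) ≤ 2 * Real.log (mu Om4) * (Real.sqrt m * Real.log m) := by
    have h5 : 1 / 2 ≤ Real.sqrt m * Real.log m := by nlinarith
    nlinarith
  unfold HG
  nlinarith

theorem sqlog {n : ℕ} (hn : 2 ≤ n) :
    Real.sqrt ((2 * n : ℕ) : ℝ) * Real.log ((2 * n : ℕ) : ℝ) ≤ 4 * (Real.sqrt n * Real.log n) := by
  have hn' : (2 : ℝ) ≤ n := by exact_mod_cast hn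
  have h1 : Real.log ((2 * n : ℕ) : ℝ) ≤ 2 * Real.log n := by
    have h2 : Real.log ((2 * n : ℕ) : ℝ) ≤ Real.log (n ^ 2 : ℝ) := by
      apply Real.log_le_log
      · push_cast
        linarith
      · push_cast
        nlinarith
    rwa [Real.log_pow, Nat.cast_ofNat] at h2
  have h3 : Real.sqrt ((2 * n : ℕ) : ℝ) ≤ 2 * Real.sqrt n := by
    rw [show (2 : ℝ) * Real.sqrt n = Real.sqrt (4 * n) by
      rw [Real.sqrt_mul (by norm_num), show (4 : ℝ) = 2 ^ 2 by norm_num, Real.sqrt_sq (by norm_num)]]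
    apply Real.sqrt_le_sqrt
    push_cast
    linarith
  have h0 : 0 ≤ Real.log ((2 * n : ℕ) : ℝ) := Real.log_natCast_nonneg _
  have h4 := mul_le_mul h3 h1 h0 (by positivity)
  calc _ ≤ (2 * Real.sqrt n) * (2 * Real.log n) := h4
    _ = _ := by ring

/-- UPB -/
theorem upb : S_UPB := by
  have hmu := Real.log_nonneg (one_le_mu lev4)
  have hmupos : 0 < mu Om4 := mu_pos' Om4
  obtain ⟨A, hA⟩ : ∃ A, A = 12 + 2 * Real.log (mu Om4) := ⟨_, rfl⟩
  have hA0 : 12 ≤ A := by linarith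
  have hone : ∀ n m : ℕ, 2 ≤ n → m ≤ 2 * n →
      (cc Om4 m : ℝ) ≤ mu Om4 ^ m * Real.exp (4 * A * (Real.sqrt n * Real.log n)) := by
    intro n m hn hm
    have h1 := log_cc_le lev4 hm
    have h2 := HG4_le (show 2 ≤ 2 * n by omega)
    rw [← hA] at h2
    have h3 := mul_le_mul_of_nonneg_left (sqlog hn) (show 0 ≤ A by linarith)
    have h4 : Real.log (cc Om4 m) ≤ m * Real.log (mu Om4) + 4 * A * (Real.sqrt n * Real.log n) := by
      linarith
    have hc := cc_pos lev4 m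
    rw [← Real.exp_log hc]
    calc Real.exp (Real.log (cc Om4 m))
        ≤ Real.exp (m * Real.log (mu Om4) + 4 * A * (Real.sqrt n * Real.log n)) := Real.exp_le_exp.mpr h4
      _ = _ := by
        rw [Real.exp_add, Real.exp_nat_mul, Real.exp_log hmupos]
  refine ⟨⟨4 * A, by linarith, hone⟩, mu_pow_le_cc lev4, one_le_mu lev4, ?_⟩
  intro τ hτ
  have hev : ∀ᶠ n : ℕ in atTop, (cc Om4 n : ℝ) ≤ ((1 + τ) * mu Om4) ^ n := by
    have hl : 0 < Real.log (1 + τ) := Real.log_pos (by linarith)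
    have h1 : Tendsto (fun x : ℝ => Real.log x / x ^ (1 / 2 : ℝ)) atTop (𝓝 0) :=
      (isLittleO_log_rpow_atTop (show (0 : ℝ) < 1 / 2 by norm_num)).tendsto_div_nhds_zero
    have h2 := (h1.comp tendsto_natCast_atTop_atTop).const_mul (4 * A)
    rw [mul_zero] at h2
    have h3 := h2.eventually_lt_const hl
    filter_upwards [h3, eventually_ge_atTop 2] with n h4 hn
    simp only [Function.comp_apply] at h4
    rw [← Real.sqrt_eq_rpow] at h4
    have hn' : (2 : ℝ) ≤ n := by exact_mod_cast hn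
    have hs : 0 < Real.sqrt (n : ℝ) := Real.sqrt_pos.mpr (by linarith)
    have hss : Real.sqrt (n : ℝ) * Real.sqrt n = n := Real.mul_self_sqrt (by linarith)
    have h5 : 4 * A * (Real.sqrt n * Real.log n) ≤ n * Real.log (1 + τ) := by
      have h6 : 4 * A * Real.log n < Real.log (1 + τ) * Real.sqrt n := by
        rw [← mul_div_assoc, div_lt_iff₀ hs] at h4
        exact h4
      have h7 := mul_le_mul_of_nonneg_left h6.le hs.le
      calc 4 * A * (Real.sqrt n * Real.log n) = Real.sqrt n * (4 * A * Real.log n) := by ring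
        _ ≤ Real.sqrt n * (Real.log (1 + τ) * Real.sqrt n) := h7
        _ = (Real.sqrt n * Real.sqrt n) * Real.log (1 + τ) := by ring
        _ = _ := by rw [hss]
    refine (hone n n hn (by omega)).trans ?_
    rw [mul_pow, mul_comm ((1 + τ) ^ n)]
    refine mul_le_mul_of_nonneg_left ?_ (pow_nonneg hmupos.le n)
    calc Real.exp (4 * A * (Real.sqrt n * Real.log n)) ≤ Real.exp (n * Real.log (1 + τ)) :=
          Real.exp_le_exp.mpr h5
      _ = (1 + τ) ^ n := by rw [Real.exp_nat_mul, Real.exp_log (by linarith)]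
  obtain ⟨N, hN⟩ := eventually_atTop.1 hev
  have hb : 0 < (1 + τ) * mu Om4 := mul_pos (by linarith) hmupos
  refine ⟨1 + ∑ i ∈ Finset.range N, (cc Om4 i : ℝ) / ((1 + τ) * mu Om4) ^ i, fun n => ?_⟩
  have hsum : 0 ≤ ∑ i ∈ Finset.range N, (cc Om4 i : ℝ) / ((1 + τ) * mu Om4) ^ i :=
    Finset.sum_nonneg (fun i _ => by positivity)
  rcases Nat.lt_or_ge n N with h | h
  · have h1 : (cc Om4 n : ℝ) / ((1 + τ) * mu Om4) ^ n ≤
        ∑ i ∈ Finset.range N, (cc Om4 i : ℝ) / ((1 + τ) * mu Om4) ^ i :=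
      Finset.single_le_sum (f := fun i => (cc Om4 i : ℝ) / ((1 + τ) * mu Om4) ^ i)
        (fun i _ => by positivity) (Finset.mem_range.mpr h)
    rw [div_le_iff₀ (pow_pos hb n)] at h1
    have h2 : 0 < ((1 + τ) * mu Om4) ^ n := pow_pos hb n
    nlinarith
  · refine (hN n h).trans ?_
    have h2 : 0 < ((1 + τ) * mu Om4) ^ n := pow_pos hb n
    nlinarith

end Pool.Agent.P8H63.DF
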